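import Pool.Agent.W558.S2.Stms2
import Pool.Agent.H920R2.Gl4

set_option autoImplicit false
set_option linter.unusedVariables false

open AlgebraicGeometry CategoryTheory Pool.Agent.H920R2 Pool.Agent.W558

namespace Pool.Agent.W418.Z

/-- The homogeneous coordinates of a model. -/
theorem modelG_of_LM {k K : Type} [Field k] [Field K] [Algebra k K] {R : Subalgebra k K}
    {T I : Type} [Finite T] (M : LM (⊥ : Subalgebra k K) R T I) :
    ∃ (I' : Type) (_ : Finite I') (z : I' → K) (J : Set I'),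
      ModelG k (fun t : T => (M.A t : Set K)) (⊤ : IntermediateField k K).toSubfield z J := by
  classical
  have : Fintype T := Fintype.ofFinite T
  have hfg : ∀ t, ∃ G : Finset K, Algebra.adjoin k (G : Set K) = M.A t := by
    intro t
    have h1 := M.sm t
    have h2 : Algebra.FiniteType k (M.A t) := inferInstance
    obtain ⟨G, hG⟩ := (Subalgebra.fg_iff_finiteType _).2 h2
    exact ⟨G, hG⟩
  choose G hG using hfg
  have hGm : ∀ t, ∀ x ∈ G t, x ∈ M.A t := by
    intro t x hx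
    rw [← hG t]; exact Algebra.subset_adjoin hx
  have h1 : ∀ p : (Σ t, {x // x ∈ G t}), ∃ n : ℕ, ∀ t, (M.H p.1 / M.H t) ^ n * p.2.1 ∈ M.A t := by
    rintro ⟨t, x, hx⟩
    choose m hm' using fun t' => M.gl t' t _ (hGm t x hx)
    refine ⟨Finset.univ.sup m, ?_⟩
    intro t'
    have h2 : m t' ≤ Finset.univ.sup m := Finset.le_sup (Finset.mem_univ t')
    exact M.gl_mono h2 (hm' t')
  choose N hN using h1
  let n : ℕ := Finset.univ.sup N
  have hNn : ∀ p, N p ≤ n := fun p => Finset.le_sup (Finset.mem_univ p)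
  let z : T ⊕ (Σ t, {x // x ∈ G t}) → K :=
    Sum.elim (fun t => M.H t ^ n) fun p => M.H p.1 ^ n * p.2.1
  have hz0 : ∀ t, z (Sum.inl t) ≠ 0 := fun t => pow_ne_zero n (M.H0 t)
  have hz : ∀ t i, z i / z (Sum.inl t) ∈ M.A t := by
    intro t i
    rcases i with t' | p
    · change M.H t' ^ n / M.H t ^ n ∈ M.A t
      rw [← div_pow]
      exact (M.A t).pow_mem (M.rt t t') n
    · change M.H p.1 ^ n * p.2.1 / M.H t ^ n ∈ M.A t
      have e1 : M.H p.1 ^ n * p.2.1 / M.H t ^ n = (M.H p.1 / M.H t) ^ n * p.2.1 := by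
        rw [div_pow]; ring
      rw [e1]
      exact M.gl_mono (hNn p) (hN p t)
  have hA : ∀ t, Algebra.adjoin k (Set.range fun i => z i / z (Sum.inl t)) = M.A t := by
    intro t
    apply le_antisymm
    · refine Algebra.adjoin_le ?_
      rintro _ ⟨i, rfl⟩
      exact hz t i
    · rw [← hG t, Algebra.adjoin_le_iff]
      intro x hx
      apply Algebra.subset_adjoin
      refine ⟨Sum.inr ⟨t, x, hx⟩, ?_⟩
      change M.H t ^ n * x / M.H t ^ n = x
      have := pow_ne_zero n (M.H0 t)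
      field_simp
  refine ⟨_, inferInstance, z, Set.range Sum.inl, ⟨?_, ?_, ?_, ?_, ?_⟩⟩
  · intro i
    trivial
  · rintro _ ⟨t, rfl⟩
    exact hz0 t
  · intro V hV
    obtain ⟨t, ht⟩ := M.cv V (by
      intro a ha
      obtain ⟨c, rfl⟩ := Algebra.mem_bot.1 ha
      exact hV c)
    exact ⟨Sum.inl t, ⟨t, rfl⟩, fun i => ht _ (hz t i)⟩
  · rintro _ ⟨t, rfl⟩
    rw [hA t]
    exact M.sm t
  · rintro _ ⟨t, rfl⟩
    exact ⟨t, by rw [hA t]⟩

/-- A smooth projective model over a finite field is a regular model proper over the integers. -/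
theorem regular_of_LM {k K : Type} [Field k] [Finite k] [Field K] [Algebra k K]
    {R : Subalgebra k K} {T I : Type} [Finite T] (M : LM (⊥ : Subalgebra k K) R T I)
    (hfr : ∀ t, ∀ x : K, ∃ y ∈ M.A t, ∃ y' ∈ M.A t, y' ≠ 0 ∧ x = y / y') :
    ∃ (X' : Scheme.{0}) (_ : IsIntegral X') (g : X' ⟶ Spec (CommRingCat.of ℤ)),
      IsProper g ∧
      (∀ x : X',
        (((Module.finrank (IsLocalRing.ResidueField (X'.presheaf.stalk x))
            (IsLocalRing.CotangentSpace (X'.presheaf.stalk x)) : ℕ∞)) : WithBot ℕ∞)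
          = ringKrullDim (X'.presheaf.stalk x)) ∧
      Nonempty (X'.functionField ≃+* K) := by
  obtain ⟨I', hI', z, J, hM⟩ := modelG_of_LM M
  obtain ⟨X', hX', g, h1, h2, ⟨h3⟩⟩ := exists_regular_model (⊤ : IntermediateField k K) hM
    (fun t x _ => hfr t x)
  exact ⟨X', hX', g, h1, h2, ⟨h3.trans IntermediateField.topEquiv.toRingEquiv⟩⟩

/-- The function field of a stage has a regular model proper over the integers. -/
theorem regular_of_sta {k K : Type} [Field k] [Finite k] [Field K] [Algebra k K]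
    {G : Type} {g : G → K} {Q : Subalgebra k K} {Ds : Set (Derivation k K K)} (h : Sta g Q Ds)
    (hQ : ∀ x : K, ∃ a ∈ Q, ∃ b ∈ Q, b ≠ 0 ∧ x = a / b) :
    ∃ (X' : Scheme.{0}) (_ : IsIntegral X') (g : X' ⟶ Spec (CommRingCat.of ℤ)),
      IsProper g ∧
      (∀ x : X',
        (((Module.finrank (IsLocalRing.ResidueField (X'.presheaf.stalk x))
            (IsLocalRing.CotangentSpace (X'.presheaf.stalk x)) : ℕ∞)) : WithBot ℕ∞)
          = ringKrullDim (X'.presheaf.stalk x)) ∧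
      Nonempty (X'.functionField ≃+* K) := by
  classical
  obtain ⟨-, -, -, T, I, hT, hI, hdI, M, Γ, B, b, hFn, hLD, hBas⟩ := h
  refine regular_of_LM M ?_
  intro t
  have key : ∀ q ∈ Q, ∃ y ∈ M.A t, ∃ y' ∈ M.A t, y' ≠ 0 ∧ q = y / y' := by
    intro q hq
    obtain ⟨c, hc, N, hc0, h1⟩ := hBas.cof t q hq
    have hx : (∏ i, M.x t i) ^ N ≠ 0 :=
      pow_ne_zero N (Finset.prod_ne_zero_iff.2 fun i _ => M.x0 t i)
    have hx' : (∏ i, M.x t i) ^ N ∈ M.A t :=
      (M.A t).pow_mem ((M.A t).prod_mem fun i _ => M.xA t i) N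
    refine ⟨_, h1, c * (∏ i, M.x t i) ^ N, (M.A t).mul_mem (hBas.BA t hc) hx',
      mul_ne_zero hc0 hx, ?_⟩
    rw [mul_div_cancel_left₀ _ (mul_ne_zero hc0 hx)]
  intro x
  obtain ⟨a, ha, b', hb', hb0, rfl⟩ := hQ x
  obtain ⟨y, hy, y', hy', hy0, rfl⟩ := key a ha
  obtain ⟨u, hu, u', hu', hu0, rfl⟩ := key b' hb'
  have hu1 : u ≠ 0 := by
    rintro rfl
    exact hb0 (zero_div _)
  refine ⟨y * u', (M.A t).mul_mem hy hu', y' * u, (M.A t).mul_mem hy' hu, mul_ne_zero hy0 hu1, ?_⟩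
  rw [div_div_div_eq]

end Pool.Agent.W418.Z
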